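import Pool.Agent.D0H79.KC.Sh

set_option autoImplicit false

universe u

noncomputable section

namespace Pool.Agent.Results.MP_0f25e6_al.CosetCount

/-- `α * f` is nonzero for every nonzero square-summable `f`, where
`(α * f)(g) = ∑ α(k) f(k⁻¹ g)`. -/
def Regular {G : Type u} [Group G] (α : G →₀ ℂ) : Prop :=
  ∀ f : G → ℂ, Memℓp f 2 → f ≠ 0 → ∃ g : G, ∑ k ∈ α.support, α k * f (k⁻¹ * g) ≠ 0

/-- All square-summable `f` with `α * f = 0`. -/
def kernel {G : Type u} [Group G] (α : G →₀ ℂ) : Set (lp (fun _ : G => ℂ) 2) :=
  {f | ∀ g : G, ∑ k ∈ α.support, α k * f (k⁻¹ * g) = 0}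

open Classical in
/-- The von Neumann dimension of a closed right-invariant subspace of `ℓ²(G)`: one minus the square
of the distance from the basis vector at the identity of `G` to the subspace (this is the squared
length of the projection of that vector to the subspace). -/
def vnDim {G : Type u} [Group G] (V : Set (lp (fun _ : G => ℂ) 2)) : ℝ :=
  1 - Metric.infDist (lp.single 2 (1 : G) (1 : ℂ)) V ^ 2

/-- The von Neumann dimension of the kernel of left convolution by `α`. -/
def kerDim {G : Type u} [Group G] (α : G →₀ ℂ) : ℝ := vnDim (kernel α)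

open Classical in
/-- The part of `α` on the left coset `q` of `H`: the same values on `q`, zero elsewhere. -/
def part {G : Type u} [Group G] (H : Subgroup G) (α : G →₀ ℂ) (q : G ⧸ H) : G →₀ ℂ :=
  α.filter (fun x : G => (x : G ⧸ H) = q)

open Classical in
/-- The left cosets of `H` that meet the support of `α`. -/
def cosets {G : Type u} [Group G] (H : Subgroup G) (α : G →₀ ℂ) : Finset (G ⧸ H) :=
  α.support.image (fun x : G => (QuotientGroup.mk x : G ⧸ H))

open Classical in
/-- The number of elements `s` of the support of `α` with `s g` in the support. -/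
def mult {G : Type u} [Group G] (α : G →₀ ℂ) (g : G) : ℕ := {s ∈ α.support | α (s * g) ≠ 0}.card

open Pool.Agent.D0H79.KC in
lemma kernel_eq {G : Type u} [Group G] (α : G →₀ ℂ) :
    kernel α = (LinearMap.ker (Tf α : H61R3NG.E2 G →ₗ[ℂ] H61R3NG.E2 G) :
      Set (H61R3NG.E2 G)) := by
  ext f
  simp only [kernel, SetLike.mem_coe, LinearMap.mem_ker]
  constructor
  · intro h
    apply lp.ext
    funext g
    have := Tf_apply α f g
    rw [show ((Tf α : H61R3NG.E2 G →ₗ[ℂ] H61R3NG.E2 G) f) = Tf α f from rfl, this]
    exact h g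
  · intro h g
    rw [← Tf_apply α f g]
    have h' : Tf α f = 0 := h
    rw [h']
    rfl

open Pool.Agent.D0H79.KC in
lemma vnDim_eq {G : Type u} [Group G] (V : Submodule ℂ (H61R3NG.E2 G))
    [V.HasOrthogonalProjection] : vnDim (V : Set (H61R3NG.E2 G)) = H61R3NG.kd V :=
  kd_infDist V

open Pool.Agent.D0H79.KC in
lemma kerDim_eq {G : Type u} [Group G] (α : G →₀ ℂ) :
    kerDim α = H61R3NG.kd (LinearMap.ker (Tf α : H61R3NG.E2 G →ₗ[ℂ] H61R3NG.E2 G)) := by
  unfold kerDim
  rw [kernel_eq]
  exact vnDim_eq _

open Pool.Agent.D0H79.KC in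
/-- **Kernel dimension and number of cosets.** Let `G` be a group and `α` a nonzero element of the
complex group algebra, with `n` elements in its support.

1. If the support of `α` meets exactly `m` left cosets of a subgroup `H`, then the dimensions `d`
   of the kernel of `α` and `d'` of the common kernel of the parts of `α` on these cosets satisfy
   `1 - d' ≤ m (1 - d)`. If `H` satisfies the analytic zero divisor conjecture, then
   `d ≤ 1 - 1/m`.
2. If for every `g ≠ 1` at most `r` elements `s` of the support have `s g` in the support, then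
   `d ≤ 1 - 1 / (1 + r (1 - 1/n))`.
3. If `s⁻¹ t` has infinite order for all `s ≠ t` in the support, in particular if `G` is
   torsion-free, then `d ≤ 1 - 2n/(n² + 1)`, and `d ≤ 1 - 2/n` if `n` is even.
4. The bound `1 - 1/m` is attained: in the product of any group `K` and a cyclic group of order `m`
   there is an element of dimension `1 - 1/m` whose support meets `m` cosets of `K`. -/
theorem result :
    (∀ (G : Type u) [Group G] (α : G →₀ ℂ), α ≠ 0 →
      (∀ H : Subgroup G,
        1 - vnDim (⋂ q : G ⧸ H, kernel (part H α q)) ≤ (cosets H α).card * (1 - kerDim α)) ∧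
      (∀ H : Subgroup G, (∀ β : H →₀ ℂ, β ≠ 0 → Regular β) →
        kerDim α ≤ 1 - 1 / (cosets H α).card) ∧
      (∀ r : ℕ, (∀ g : G, g ≠ 1 → mult α g ≤ r) →
        kerDim α ≤ 1 - 1 / (1 + r * (1 - 1 / α.support.card))) ∧
      ((∀ s ∈ α.support, ∀ t ∈ α.support, s ≠ t → ¬ IsOfFinOrder (s⁻¹ * t)) →
        kerDim α ≤ 1 - 2 * α.support.card / (α.support.card ^ 2 + 1) ∧
        (Even α.support.card → kerDim α ≤ 1 - 2 / α.support.card))) ∧
    (∀ (K : Type u) [Group K] (m : ℕ), 0 < m →
      ∃ α : (K × Multiplicative (ZMod m)) →₀ ℂ,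
        (cosets (Subgroup.prod ⊤ ⊥) α).card = m ∧ kerDim α = 1 - 1 / m) := by
  classical
  refine ⟨fun G _ α h0 => ?_, fun K _ m hm => ?_⟩
  · have hcard : 0 < α.support.card := by
      rw [Finset.card_pos]
      exact Finsupp.support_nonempty_iff.2 h0
    have hcR : (0 : ℝ) < α.support.card := by exact_mod_cast hcard
    have hd : 0 ≤ 1 - kerDim α := by
      rw [kerDim_eq, ← H61R3NG.kd_orth]
      unfold H61R3NG.kd
      positivity
    refine ⟨fun H => ?_, fun H hH => ?_, fun r hr => ?_, fun htf => ?_⟩
    · have h1 : (⋂ q : G ⧸ H, kernel (part H α q)) = (joint H α : Set (H61R3NG.E2 G)) := by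
        ext f
        rw [Set.mem_iInter, SetLike.mem_coe, mem_joint]
        refine forall_congr' fun q => ?_
        rw [kernel_eq]
        rfl
      rw [h1, vnDim_eq, kerDim_eq]
      exact coset_bound H α
    · have h1 := azd_bound H (fun b hb => hH b hb) α h0
      rw [← kerDim_eq] at h1
      have h2 : 0 < (cosets H α).card := by
        rw [Finset.card_pos]
        obtain ⟨t, ht⟩ := Finsupp.support_nonempty_iff.2 h0
        exact ⟨_, mem_cosets H α t ht⟩
      have h3 : (0 : ℝ) < (cosets H α).card := by exact_mod_cast h2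
      have h4 : 1 / ((cosets H α).card : ℝ) ≤ 1 - kerDim α := by
        rw [div_le_iff₀ h3, mul_comm]
        exact h1
      linarith
    · have h1 := mult_bound α h0 r (fun g hg => by
        have := hr g hg
        unfold mult at this
        convert this)
      rw [← kerDim_eq] at h1
      have h2 : (0 : ℝ) < 1 + r * (1 - 1 / (α.support.card : ℝ)) := by
        have h3 : 1 / (α.support.card : ℝ) ≤ 1 := by
          rw [div_le_one hcR]
          exact_mod_cast hcard
        have h4 : (0 : ℝ) ≤ r * (1 - 1 / (α.support.card : ℝ)) :=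
          mul_nonneg (Nat.cast_nonneg _) (by linarith)
        linarith
      have h4 : 1 / (1 + r * (1 - 1 / (α.support.card : ℝ))) ≤ 1 - kerDim α := by
        rw [div_le_iff₀ h2, mul_comm]
        exact h1
      linarith
    · have h1 := supp_bound α h0 htf
      rw [← kerDim_eq] at h1
      constructor
      · have h2 : 2 * (α.support.card : ℝ) / ((α.support.card : ℝ) ^ 2 + 1) ≤ 1 - kerDim α := by
          rw [div_le_iff₀ (by positivity), mul_comm]
          linarith [h1.1]
        linarith
      · intro he
        have h2 : 2 / (α.support.card : ℝ) ≤ 1 - kerDim α := by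
          rw [div_le_iff₀ hcR, mul_comm]
          exact h1.2 he
        linarith
  · have : NeZero m := ⟨hm.ne'⟩
    refine ⟨tor K m, fac_card K m, ?_⟩
    rw [kerDim_eq]
    exact tor_dim K m

end Pool.Agent.Results.MP_0f25e6_al.CosetCount
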