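import Pool.Agent.D0H80.AZ.Mat

set_option autoImplicit false

universe u v

namespace Pool.Agent.Results.MP_0f25e6_al.InitialParts

/-- The kernel of right multiplication by the matrix `A` over the complex group ring on row vectors
of length `m` over `l2(G)`: all square-summable `x` with `x A = 0`. -/
def kernel {G : Type u} [Group G] {m l : ℕ} (A : Matrix (Fin m) (Fin l) (G →₀ ℂ)) :
    Set (lp (fun _ : Fin m × G => ℂ) 2) :=
  {x | ∀ (j : Fin l) (g : G),
    ∑ k : Fin m, ∑ h ∈ (A k j).support, x (k, g * h⁻¹) * A k j h = 0}

open Classical in
/-- The von Neumann dimension of that kernel: the sum over `i` of one minus the square of the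
distance from the basis vector at `(i, 1)` to the kernel, that is, the sum of the squared lengths
of the projections of these vectors to the kernel. -/
noncomputable def kerDim {G : Type u} [Group G] {m l : ℕ}
    (A : Matrix (Fin m) (Fin l) (G →₀ ℂ)) : ℝ :=
  ∑ i : Fin m, (1 - Metric.infDist
    (lp.single (E := fun _ : Fin m × G => ℂ) 2 (i, (1 : G)) (1 : ℂ)) (kernel A) ^ 2)

open Classical in
/-- The initial part of the matrix `A` for the points `r k` and `s j` of a set on which `G` acts:
of the entry at `(k, j)` only the terms at the group elements `g` with `g • s j = r k` are kept. -/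
noncomputable def initialPart {G : Type u} [Group G] {X : Type v} [MulAction G X] {m l : ℕ}
    (A : Matrix (Fin m) (Fin l) (G →₀ ℂ)) (r : Fin m → X) (s : Fin l → X) :
    Matrix (Fin m) (Fin l) (G →₀ ℂ) :=
  fun k j => (A k j).filter (fun g => g • s j = r k)

theorem initialPart_pos {G : Type u} [Group G] {X : Type v} [MulAction G X] {m l : ℕ}
    (A : Matrix (Fin m) (Fin l) (G →₀ ℂ)) (r : Fin m → X) (s : Fin l → X) (k : Fin m) (j : Fin l)
    (g : G) (hg : g • s j = r k) : initialPart A r s k j g = A k j g := by
  classical
  exact Finsupp.filter_apply_pos (fun g => g • s j = r k) (A k j) hg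

theorem initialPart_neg {G : Type u} [Group G] {X : Type v} [MulAction G X] {m l : ℕ}
    (A : Matrix (Fin m) (Fin l) (G →₀ ℂ)) (r : Fin m → X) (s : Fin l → X) (k : Fin m) (j : Fin l)
    (g : G) (hg : g • s j ≠ r k) : initialPart A r s k j g = 0 := by
  classical
  exact Finsupp.filter_apply_neg (fun g => g • s j = r k) (A k j) hg

theorem kerDim_eq {G : Type u} [Group G] {m l : ℕ} (A : Matrix (Fin m) (Fin l) (G →₀ ℂ)) :
    kerDim A = W649.ZL.kerDimM A := by
  unfold kerDim W649.ZL.kerDimM
  rfl

/-- Let `G` be any group.

1. Let `G` act by order preserving maps on a linearly ordered set `X`, let `A` be an `m × n` matrix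
   over the complex group ring of `G`, and let `r k` (`k` a row) and `s j` (`j` a column) be points
   of `X` such that `g (s j) ≤ r k` for all `g` in the support of the entry at `(k, j)`. Then the
   kernel of `A` on `l2(G)^m` has at most the von Neumann dimension of the kernel of the initial
   part of `A`, which consists of the terms with `g (s j) = r k`.
2. Let `≤` be a left invariant linear order on `G`, and let `a k` and `b j` be elements of `G` such
   that `g * b j ≤ a k` for all `g` in the support of the entry at `(k, j)`. Then the dimension of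
   the kernel of `A` is at most `m` minus the rank of the complex `m × n` matrix whose entry at
   `(k, j)` is the coefficient of the entry of `A` at the group element `a k * (b j)⁻¹`. -/
theorem result {G : Type u} [Group G] :
    (∀ (X : Type v) [LinearOrder X] [MulAction G X],
      (∀ (g : G) (x y : X), x ≤ y → g • x ≤ g • y) →
      ∀ (m n : ℕ) (A : Matrix (Fin m) (Fin n) (G →₀ ℂ)) (r : Fin m → X) (s : Fin n → X),
        (∀ k j, ∀ g ∈ (A k j).support, g • s j ≤ r k) →
          kerDim A ≤ kerDim (initialPart A r s)) ∧
    (∀ [LinearOrder G], (∀ g x y : G, x ≤ y → g * x ≤ g * y) →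
      ∀ (m n : ℕ) (A : Matrix (Fin m) (Fin n) (G →₀ ℂ)) (a : Fin m → G) (b : Fin n → G),
        (∀ k j, ∀ g ∈ (A k j).support, g * b j ≤ a k) →
          kerDim A ≤ m - (Matrix.of fun k j => A k j (a k * (b j)⁻¹)).rank) := by
  classical
  constructor
  · intro X _ _ hX m n A r s hA
    rw [kerDim_eq, kerDim_eq]
    exact D0H80.AZ.kerDimM_initial hX A (initialPart A r s) r s hA
      (initialPart_pos A r s) (initialPart_neg A r s)
  · intro _ hG m n A a b hA
    rw [kerDim_eq]
    refine (D0H80.AZ.kerDimM_initial (X := G) hG A
      (fun k j => Finsupp.single (a k * (b j)⁻¹)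
          ((Matrix.of fun k j => A k j (a k * (b j)⁻¹)) k j)) a b hA ?_ ?_).trans
      (D0H80.AZ.kerDimM_rank _ a b)
    · intro k j g hg
      have h1 : a k * (b j)⁻¹ = g := by
        rw [← hg, smul_eq_mul]; group
      rw [Matrix.of_apply, Finsupp.single_apply, if_pos h1, h1]
    · intro k j g hg
      have h1 : ¬ a k * (b j)⁻¹ = g := by
        intro h2
        apply hg
        rw [← h2, smul_eq_mul]; group
      rw [Matrix.of_apply, Finsupp.single_apply, if_neg h1]

end Pool.Agent.Results.MP_0f25e6_al.InitialParts
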