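import Pool.Agent.D0H79.LV.Cyc

set_option autoImplicit false

universe u v w

open MeasureTheory

noncomputable section

namespace Pool.Agent.Results.MP_0f25e6_al.LevelSets

/-- `α * f` is nonzero for every nonzero square-summable `f`, where
`(α * f)(g) = ∑ α(k) f(k⁻¹ g)`. -/
def Regular {G : Type u} [Group G] (α : G →₀ ℂ) : Prop :=
  ∀ f : G → ℂ, Memℓp f 2 → f ≠ 0 → ∃ g : G, ∑ k ∈ α.support, α k * f (k⁻¹ * g) ≠ 0

/-- All square-summable `f` with `α * f = 0`. -/
def kernel {G : Type u} [Group G] (α : G →₀ ℂ) : Set (lp (fun _ : G => ℂ) 2) :=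
  {f | ∀ g : G, ∑ k ∈ α.support, α k * f (k⁻¹ * g) = 0}

open Classical in
/-- The von Neumann dimension of the kernel of left convolution by `α`: one minus the square of the
distance from the basis vector at the identity of `G` to the kernel (this is the squared length of
the projection of that vector to the kernel). -/
def kerDim {G : Type u} [Group G] (α : G →₀ ℂ) : ℝ :=
  1 - Metric.infDist (lp.single 2 (1 : G) (1 : ℂ)) (kernel α) ^ 2

/-- `χ` is a uniformly distributed random character of `A` on the probability space `(Ω, μ)`: all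
values `χ(a)` are measurable, and those at `a ≠ 1` have mean zero. (Then `A` is commutative and `χ`
is distributed according to the Haar measure of its dual group.) -/
structure UniformCharacter {A : Type v} [Group A] {Ω : Type w} [MeasurableSpace Ω] (μ : Measure Ω)
    (χ : Ω → A →* Circle) : Prop where
  measurable : ∀ a : A, Measurable fun ω => (χ ω a : ℂ)
  mean_zero : ∀ a : A, a ≠ 1 → ∫ ω, (χ ω a : ℂ) ∂μ = 0

/-- The element `∑ i, t i * P i` of the group algebra of `G`, where the elements `P i` of the group
algebra of `A` are carried to `G` by `ι`. -/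
def combine {G : Type u} [Group G] {A : Type v} [Group A] (ι : A →* G) {m : ℕ} (t : Fin m → G)
    (P : Fin m → A →₀ ℂ) : G →₀ ℂ :=
  ∑ i, (P i).mapDomain (fun a => t i * ι a)

/-- The square of the absolute value of `∑ a, P(a) ψ(a)`. -/
def absSq {A : Type v} [Group A] (P : A →₀ ℂ) (ψ : A →* Circle) : ℝ :=
  ‖∑ a ∈ P.support, P a * (ψ a : ℂ)‖ ^ 2

/-- The character `n ↦ exp (2 π i n s)` of the integers (written multiplicatively). -/
def torus (s : ℝ) : Multiplicative ℤ →* Circle :=
  zpowersHom Circle (Circle.exp (2 * Real.pi * s))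

open Pool.Agent.D0H79.KC Pool.Agent.D0H79.LV

lemma kernel_eq {G : Type u} [Group G] (α : G →₀ ℂ) :
    kernel α = (LinearMap.ker (Tf α : H61R3NG.E2 G →ₗ[ℂ] H61R3NG.E2 G) :
      Set (H61R3NG.E2 G)) := by
  ext f
  simp only [kernel, SetLike.mem_coe, LinearMap.mem_ker]
  constructor
  · intro h
    apply lp.ext
    funext g
    have := Tf_apply α f g
    rw [show ((Tf α : H61R3NG.E2 G →ₗ[ℂ] H61R3NG.E2 G) f) = Tf α f from rfl, this]
    exact h g
  · intro h g
    rw [← Tf_apply α f g]
    have h' : Tf α f = 0 := h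
    rw [h']
    rfl

lemma kerDim_eq {G : Type u} [Group G] (α : G →₀ ℂ) :
    kerDim α = H61R3NG.kd (LinearMap.ker (Tf α : H61R3NG.E2 G →ₗ[ℂ] H61R3NG.E2 G)) := by
  unfold kerDim
  rw [kernel_eq]
  exact kd_infDist _

lemma Tf_combine {G : Type u} [Group G] {A : Type v} [Group A] (ι : A →* G) {m : ℕ}
    (t : Fin m → G) (P : Fin m → A →₀ ℂ) :
    Tf (combine ι t P) = ∑ i, Sop ι (t i) (MonoidAlgebra.ofCoeff (P i)) := by
  classical
  have h1 : ∀ x y : G →₀ ℂ, Tf (x + y) = Tf x + Tf y := by
    intro x y
    unfold Tf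
    rw [← map_add]
    rfl
  have h2 : ∀ (s : Finset (Fin m)) (f : Fin m → G →₀ ℂ), Tf (∑ i ∈ s, f i) = ∑ i ∈ s, Tf (f i) := by
    intro s f
    induction s using Finset.induction_on with
    | empty =>
      rw [Finset.sum_empty, Finset.sum_empty]
      exact Tf_zero
    | insert i s hi ih => rw [Finset.sum_insert hi, Finset.sum_insert hi, h1, ih]
  unfold combine
  rw [h2]
  refine Finset.sum_congr rfl fun i _ => ?_
  induction P i using Finsupp.induction_linear with
  | zero =>
    rw [Finsupp.mapDomain_zero, Tf_zero]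
    unfold Sop
    have : (MonoidAlgebra.ofCoeff (0 : A →₀ ℂ)) = (0 : MonoidAlgebra ℂ A) := rfl
    rw [this, map_zero, mul_zero]
  | add p q hp hq =>
    rw [Finsupp.mapDomain_add, h1, hp, hq]
    unfold Sop
    have : (MonoidAlgebra.ofCoeff (p + q)) = (MonoidAlgebra.ofCoeff p + MonoidAlgebra.ofCoeff q :
      MonoidAlgebra ℂ A) := rfl
    rw [this, map_add, mul_add]
  | single a c =>
    rw [Finsupp.mapDomain_single]
    unfold Sop Tf
    have e1 : (MonoidAlgebra.ofCoeff (Finsupp.single a c)) = MonoidAlgebra.single a c := rfl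
    have e2 : (MonoidAlgebra.ofCoeff (Finsupp.single (t i * ι a) c))
      = MonoidAlgebra.single (t i * ι a) c := rfl
    rw [e1, e2, Op_single]
    unfold H61R3NG.Top
    rw [MonoidAlgebra.lift_single, mul_smul_comm, map_mul]

lemma absSq_eq {A : Type v} [Group A] (P : A →₀ ℂ) (ψ : A →* Circle) :
    absSq P ψ = ‖Ev ψ (MonoidAlgebra.ofCoeff P)‖ ^ 2 := by
  rw [Ev_eq]
  rfl

/-- **Kernel dimension and level sets.** Let `α = ∑ i, t i * P i` be an element of the complex group
algebra of a group `G`, where the `P i` are in the group algebra of a subgroup `A` (more precisely,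
the image of an injective homomorphism `ι`) and `t i` are elements of `G`. Let `χ` be a uniformly
distributed random character of `A`.

1. If `j` is an index and `c i` are positive numbers such that those with `i ≠ j` have sum at most
   `1`, then the kernel of `α` on `ℓ²(G)` has von Neumann dimension at most the probability that
   `|P j (χ)|² ≤ ∑ i ≠ j, |P i (χ)|² / c i`. In particular, if almost surely the reverse strict
   inequality holds, then `α * f ≠ 0` for all nonzero `f` in `ℓ²(G)`.
2. If the cosets `t i A` are distinct and `c i` are positive numbers of sum at most `1`, then the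
   dimension is at most one minus the mean of `∑ i, |P i (χ)|² / ∑ i, |P i (χ)|² / c i`.
3. If `g` is an element of infinite order of a group, then 1 and 2 hold for the homomorphism
   `n ↦ g ^ n` of the integers and for the characters `n ↦ exp (2 π i n s)`, where `s` is uniformly
   distributed in the unit interval (the `P i` are then Laurent polynomials on the unit circle).
4. Both bounds are attained: let `g` be a generator of the rotations of the infinite dihedral group,
   `t` a reflection and `a` a complex number which is not real. For `α = (g - a) + t (1 - a g)` the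
   dimension, the length of the set of all `s` with `|z - a| ≤ |1 - a z|`, where
   `z = exp (2 π i s)`, and the bound of 2 for `c = (1/2, 1/2)` are all equal to `1/2`. -/
theorem result :
    (∀ (G : Type u) [Group G] (A : Type v) [Group A] (ι : A →* G), Function.Injective ι →
      ∀ (Ω : Type w) [MeasurableSpace Ω] (μ : Measure Ω) [IsProbabilityMeasure μ]
        (χ : Ω → A →* Circle), UniformCharacter μ χ →
      ∀ (m : ℕ) (t : Fin m → G) (P : Fin m → A →₀ ℂ) (c : Fin m → ℝ), (∀ i, 0 < c i) →
        (∀ j : Fin m, ∑ i ∈ Finset.univ.erase j, c i ≤ 1 →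
          kerDim (combine ι t P) ≤ μ.real {ω |
            absSq (P j) (χ ω) ≤ ∑ i ∈ Finset.univ.erase j, absSq (P i) (χ ω) / c i} ∧
          ((∀ᵐ ω ∂μ, ∑ i ∈ Finset.univ.erase j, absSq (P i) (χ ω) / c i < absSq (P j) (χ ω)) →
            Regular (combine ι t P))) ∧
        ((∀ i j, i ≠ j → (t i)⁻¹ * t j ∉ Set.range ι) → ∑ i, c i ≤ 1 →
          kerDim (combine ι t P) ≤ 1 -
            ∫ ω, (∑ i, absSq (P i) (χ ω)) / (∑ i, absSq (P i) (χ ω) / c i) ∂μ)) ∧
    (∀ (G : Type u) [Group G] (g : G), ¬ IsOfFinOrder g → Function.Injective (zpowersHom G g)) ∧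
    UniformCharacter (volume.restrict (Set.Icc (0 : ℝ) 1)) torus ∧
    (∀ a : ℂ, a.im ≠ 0 → ∀ P : Fin 2 → Multiplicative ℤ →₀ ℂ,
      P 0 = Finsupp.single (Multiplicative.ofAdd 1) 1 - Finsupp.single 1 a →
      P 1 = Finsupp.single 1 1 - Finsupp.single (Multiplicative.ofAdd 1) a →
        kerDim (combine (zpowersHom (DihedralGroup 0) (DihedralGroup.r 1))
          ![1, DihedralGroup.sr 0] P) = 1 / 2 ∧
        (volume.restrict (Set.Icc (0 : ℝ) 1)).real
          {s | absSq (P 0) (torus s) ≤ absSq (P 1) (torus s)} = 1 / 2 ∧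
        ∫ s in Set.Icc (0 : ℝ) 1, (∑ i, absSq (P i) (torus s)) /
          (∑ i, absSq (P i) (torus s) / (1 / 2)) = 1 / 2) := by
  classical
  refine ⟨fun G _ A _ ι hι Ω _ μ _ χ hχ m t P c hc => ?_, fun G _ g hg => zpowers_inj g hg,
    ⟨unif_chr.meas, unif_chr.mean⟩, fun a ha P hP0 hP1 => ?_⟩
  · have hU : Unif μ χ := ⟨hχ.measurable, hχ.mean_zero⟩
    refine ⟨fun j hsum => ?_, fun ht hsum => ?_⟩
    · have h1 : kerDim (combine ι t P) ≤ μ.real {ω |
            absSq (P j) (χ ω) ≤ ∑ i ∈ Finset.univ.erase j, absSq (P i) (χ ω) / c i} := by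
        have h2 := level_bound (μ := μ) ι hι hU t (fun i => MonoidAlgebra.ofCoeff (P i)) j c
          (fun i _ => hc i) hsum
        rw [kerDim_eq, H61R3NG.kd_congr _ _ (by rw [Tf_combine])]
        refine h2.trans (le_of_eq ?_)
        congr 1
        ext ω
        simp only [Set.mem_ofPred_eq]
        rw [absSq_eq]
        have h3 : ∑ i ∈ Finset.univ.erase j, (c i)⁻¹ * ‖Ev (χ ω) (MonoidAlgebra.ofCoeff (P i))‖ ^ 2
            = ∑ i ∈ Finset.univ.erase j, absSq (P i) (χ ω) / c i := by
          refine Finset.sum_congr rfl fun i _ => ?_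
          rw [absSq_eq, div_eq_inv_mul]
        rw [h3]
      refine ⟨h1, fun hae => ?_⟩
      have h2 : μ.real {ω |
            absSq (P j) (χ ω) ≤ ∑ i ∈ Finset.univ.erase j, absSq (P i) (χ ω) / c i} = 0 := by
        rw [measureReal_def]
        have h3 : μ {ω | absSq (P j) (χ ω) ≤
            ∑ i ∈ Finset.univ.erase j, absSq (P i) (χ ω) / c i} = 0 := by
          rw [ae_iff] at hae
          simpa only [not_lt] using hae
        rw [h3]
        rfl
      rw [h2, kerDim_eq] at h1
      intro f hf hf0
      by_contra hcon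
      push Not at hcon
      apply hf0
      have h3 : (⟨f, hf⟩ : H61R3NG.E2 G) ∈ kernel (combine ι t P) := hcon
      rw [kernel_eq] at h3
      have h4 : H61R3NG.kd (LinearMap.ker (Tf (combine ι t P) :
          H61R3NG.E2 G →ₗ[ℂ] H61R3NG.E2 G)) = 0 :=
        le_antisymm h1 (by unfold H61R3NG.kd; positivity)
      have h5 := kd_zero_imp _ (H61R3NG.RInv_ker (Com_Tf (combine ι t P))) h4 _ h3
      have h6 := congrArg (fun x : H61R3NG.E2 G => (x : G → ℂ)) h5
      exact h6
    · have h2 := integral_bound (μ := μ) ι hι hU t ht (fun i => MonoidAlgebra.ofCoeff (P i)) c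
          hc hsum
      rw [kerDim_eq, H61R3NG.kd_congr _ _ (by rw [Tf_combine])]
      refine h2.trans (le_of_eq ?_)
      congr 1
      refine integral_congr_ae (Filter.Eventually.of_forall fun ω => ?_)
      simp only [absSq_eq, div_eq_inv_mul]
  · have hι := zpowers_inj (DihedralGroup.r 1 : DihedralGroup 0) (by
      rw [isOfFinOrder_iff_pow_eq_one]
      rintro ⟨n, hn, h⟩
      rw [DihedralGroup.r_one_pow] at h
      have h2 : (n : ZMod 0) = 0 := by
        have h3 : (DihedralGroup.r (n : ZMod 0) : DihedralGroup 0) = DihedralGroup.r 0 := h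
        exact DihedralGroup.r.inj h3
      have h4 : (n : ℤ) = 0 := h2
      omega)
    have hF0 : ∀ s : ℝ, absSq (P 0) (torus s)
        = ‖(chr s (Multiplicative.ofAdd 1) : ℂ) - a‖ ^ 2 := by
      intro s
      rw [absSq_eq, ev_P0 a _ _ hP0]
      rfl
    have hF1 : ∀ s : ℝ, absSq (P 1) (torus s)
        = ‖1 - a * (chr s (Multiplicative.ofAdd 1) : ℂ)‖ ^ 2 := by
      intro s
      rw [absSq_eq, ev_P1 a _ _ hP1]
      rfl
    have hlev : (volume.restrict (Set.Icc (0 : ℝ) 1)).real
          {s | absSq (P 0) (torus s) ≤ absSq (P 1) (torus s)} = 1 / 2 := by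
      rw [← half_meas a.im ha]
      congr 1
      ext s
      simp only [Set.mem_ofPred_eq]
      rw [hF0, hF1, lin_le a _ (Circle.norm_coe _), chr_one_im]
    have hTf : Tf (combine (zpowersHom (DihedralGroup 0) (DihedralGroup.r 1))
          ![1, DihedralGroup.sr 0] P) = _ :=
      (Tf_combine (zpowersHom (DihedralGroup 0) (DihedralGroup.r 1)) ![1, DihedralGroup.sr 0] P).trans
        ((Fin.sum_univ_two _).trans (dih_op a (P 0) (P 1) hP0 hP1))
    refine ⟨le_antisymm ?_ ?_, hlev, ?_⟩
    · have h2 := level_bound (μ := uni) (zpowersHom (DihedralGroup 0) (DihedralGroup.r 1)) hι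
        unif_chr ![1, DihedralGroup.sr 0] (fun i => MonoidAlgebra.ofCoeff (P i)) 0 (fun _ => 1)
          (fun _ _ => one_pos) (by simp)
      rw [kerDim_eq, H61R3NG.kd_congr _ _ (by rw [Tf_combine])]
      refine h2.trans (le_of_eq ?_)
      rw [← hlev]
      congr 1
      ext s
      simp only [Set.mem_ofPred_eq]
      have h3 : (Finset.univ.erase (0 : Fin 2)) = {1} := by decide
      rw [h3, Finset.sum_singleton, absSq_eq, absSq_eq, inv_one, one_mul]
      rfl
    · rw [kerDim_eq]
      have h1 := kd_ge (LinearMap.ker (Tf (combine (zpowersHom (DihedralGroup 0)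
        (DihedralGroup.r 1)) ![1, DihedralGroup.sr 0] P) :
          H61R3NG.E2 (DihedralGroup 0) →ₗ[ℂ] H61R3NG.E2 (DihedralGroup 0))) _ (dih_ker a _ hTf)
      rw [dih_dist] at h1
      linarith
    · have h1 : ∀ s : ℝ, (∑ i, absSq (P i) (torus s)) /
          (∑ i, absSq (P i) (torus s) / (1 / 2)) = 1 / 2 := by
        intro s
        have h2 : ∑ i, absSq (P i) (torus s) / (1 / 2) = 2 * ∑ i, absSq (P i) (torus s) := by
          rw [Finset.mul_sum]
          refine Finset.sum_congr rfl fun i _ => ?_
          ring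
        have h3 : 0 < ∑ i, absSq (P i) (torus s) := by
          rw [Fin.sum_univ_two, hF0, hF1]
          have h4 : 0 ≤ ‖1 - a * (chr s (Multiplicative.ofAdd 1) : ℂ)‖ ^ 2 := sq_nonneg _
          have h5 : 0 ≤ ‖(chr s (Multiplicative.ofAdd 1) : ℂ) - a‖ ^ 2 := sq_nonneg _
          rcases eq_or_lt_of_le h5 with h6 | h6
          · have h7 : (chr s (Multiplicative.ofAdd 1) : ℂ) = a := by
              have h8 := norm_eq_zero.1 ((pow_eq_zero_iff two_ne_zero).1 h6.symm)
              exact sub_eq_zero.1 h8
            rcases eq_or_lt_of_le h4 with h9 | h9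
            · exfalso
              have h8 := norm_eq_zero.1 ((pow_eq_zero_iff two_ne_zero).1 h9.symm)
              rw [h7] at h8
              have h10 : (a - 1) * (a + 1) = 0 := by linear_combination -h8
              rcases mul_eq_zero.1 h10 with h11 | h11
              · apply ha
                rw [sub_eq_zero.1 h11]
                rfl
              · apply ha
                rw [eq_neg_of_add_eq_zero_left h11]
                simp
            · linarith
          · linarith
        rw [h2]
        field_simp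
      simp only [h1]
      simp

end Pool.Agent.Results.MP_0f25e6_al.LevelSets
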