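import Pool.Agent.D0H80.AZ.Gap

set_option autoImplicit false

universe u

namespace Pool.Agent.Results.MP_0f25e6_al.OrderedActions

/-- `α * f` is nonzero for every nonzero square-summable `f`, where
`(α * f)(g) = ∑ α(k) f(k⁻¹ g)`. -/
def Regular {G : Type u} [Group G] (α : G →₀ ℂ) : Prop :=
  ∀ f : G → ℂ, Memℓp f 2 → f ≠ 0 → ∃ g : G, ∑ k ∈ α.support, α k * f (k⁻¹ * g) ≠ 0

/-- All square-summable `f` with `α * f = 0`. -/
def kernel {G : Type u} [Group G] (α : G →₀ ℂ) : Set (lp (fun _ : G => ℂ) 2) :=
  {f | ∀ g : G, ∑ k ∈ α.support, α k * f (k⁻¹ * g) = 0}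

open Classical in
/-- The von Neumann dimension of the kernel of left convolution by `α`: one minus the square of the
distance from the basis vector at the identity of `G` to the kernel (this is the squared length of
the projection of that vector to the kernel). -/
noncomputable def kerDim {G : Type u} [Group G] (α : G →₀ ℂ) : ℝ :=
  1 - Metric.infDist (lp.single 2 (1 : G) (1 : ℂ)) (kernel α) ^ 2

/-- The kernel of every nonzero element of the complex group algebra of `G` has von Neumann
dimension at most `1 - c`. -/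
def Gap (c : ℝ) (G : Type u) [Group G] : Prop := ∀ α : G →₀ ℂ, α ≠ 0 → kerDim α ≤ 1 - c

/-- `G` has an action by order preserving maps on some linearly ordered set in which some element of
`G` moves some point (equivalently, some quotient group of `G` is nontrivial and left-orderable). -/
def ActsOnOrder (G : Type u) [Group G] : Prop :=
  ∃ (X : Type u) (_ : LinearOrder X) (_ : MulAction G X),
    (∀ (g : G) (x y : X), x ≤ y → g • x ≤ g • y) ∧ ∃ (g : G) (x : X), g • x ≠ x

theorem kerDim_eq {G : Type u} [Group G] (α : G →₀ ℂ) : kerDim α = D0H80.AZ.kv α :=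
  W649.ZL.kerDim_eq_vd α

theorem gap_one_iff (G : Type u) [Group G] :
    Gap 1 G ↔ ∀ α : G →₀ ℂ, α ≠ 0 → Regular α := by
  constructor
  · intro h α hα
    apply (W649.ZL.regular_iff α).2
    apply W649.ZL.injective_of_vd_eq_zero _ (W649.ZL.cop_eqv _)
    have h1 := h α hα
    rw [kerDim_eq, sub_self] at h1
    exact h1
  · intro h α hα
    have h1 := W649.ZL.vd_ker_of_injective _ ((W649.ZL.regular_iff α).1 (h α hα))
    rw [kerDim_eq, sub_self]
    exact h1.le

/-- Let `c ≤ 1`. (`Gap 1 G` is the conclusion of the analytic zero divisor conjecture for `G`.)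

1. If every nontrivial finitely generated subgroup of the group `G` has property `Gap c` or a
   nontrivial action by order preserving maps on a linearly ordered set (that is, a nontrivial
   left-orderable quotient), then `G` has property `Gap c`.
2. If `K` is a subgroup of `G` with property `Gap c` such that the set of left cosets `G/K` has a
   linear order which is invariant under `G`, then `G` has property `Gap c`; for instance, if `K` is
   normal and `G/K` is left-orderable.
3. `Gap 1 G` holds if and only if `α * f ≠ 0` for all nonzero `α` in the complex group algebra of `G`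
   and all nonzero square-summable `f` on `G`. -/
theorem result :
    (∀ (G : Type u) [Group G] (c : ℝ), c ≤ 1 →
      (∀ H : Subgroup G, H.FG → H ≠ ⊥ → Gap c H ∨ ActsOnOrder H) → Gap c G) ∧
    (∀ (G : Type u) [Group G] (K : Subgroup G) (c : ℝ), c ≤ 1 →
      (∃ _ : LinearOrder (G ⧸ K), ∀ (g : G) (x y : G ⧸ K), x ≤ y → g • x ≤ g • y) →
      Gap c K → Gap c G) ∧
    (∀ (G : Type u) [Group G], Gap 1 G ↔ ∀ α : G →₀ ℂ, α ≠ 0 → Regular α) := by
  classical
  refine ⟨fun G _ c hc h α hα => ?_, fun G _ K c hc hK hgap α hα => ?_, fun G _ => gap_one_iff G⟩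
  · rw [kerDim_eq]
    refine D0H80.AZ.gap_aux c hc G (fun H hH hne => ?_) _ α hα rfl
    rcases h H hH hne with h1 | h1
    · refine Or.inl fun β hβ => ?_
      rw [← kerDim_eq]
      exact h1 β hβ
    · exact Or.inr h1
  · obtain ⟨_, hX⟩ := hK
    rw [kerDim_eq]
    obtain ⟨t1, ht1, hmin⟩ := Finset.exists_min_image α.support
      (fun t => t • ((1 : G) : G ⧸ K)) (Finsupp.support_nonempty_iff.2 hα)
    refine (D0H80.AZ.kv_initial hX α ((1 : G) : G ⧸ K) (t1 • ((1 : G) : G ⧸ K)) hmin).trans ?_
    set γ := α.filter (fun t => t • ((1 : G) : G ⧸ K) = t1 • ((1 : G) : G ⧸ K)) with hγ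
    rw [← D0H80.AZ.kv_mapDomain t1⁻¹ γ]
    have hinjm : Function.Injective (fun x : G => t1⁻¹ * x) := mul_right_injective t1⁻¹
    set δ := γ.mapDomain (fun x => t1⁻¹ * x) with hδ
    have hsupp : δ.support = γ.support.image (fun x => t1⁻¹ * x) :=
      Finsupp.mapDomain_support_of_injective hinjm γ
    have hmem : ∀ x ∈ δ.support, x ∈ K := by
      intro x hx
      rw [hsupp, Finset.mem_image] at hx
      obtain ⟨y, hy, rfl⟩ := hx
      rw [hγ, Finsupp.support_filter, Finset.mem_filter] at hy
      have h1 : ((y : G) : G ⧸ K) = ((t1 : G) : G ⧸ K) := by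
        have h2 := hy.2
        rw [MulAction.Quotient.smul_coe, MulAction.Quotient.smul_coe, smul_eq_mul, smul_eq_mul,
          mul_one, mul_one] at h2
        exact h2
      exact QuotientGroup.eq.1 h1.symm
    rw [D0H80.AZ.kv_toSub K δ hmem, ← kerDim_eq]
    apply hgap
    intro h0
    have h1 : D0H80.AZ.toSub K δ 1 = δ 1 := rfl
    have h2 : δ (t1⁻¹ * t1) = γ t1 := Finsupp.mapDomain_apply hinjm γ t1
    rw [inv_mul_cancel] at h2
    have h3 : γ t1 = α t1 := Finsupp.filter_apply_pos
      (fun t => t • ((1 : G) : G ⧸ K) = t1 • ((1 : G) : G ⧸ K)) α rfl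
    rw [h0, h2, h3] at h1
    exact (Finsupp.mem_support_iff.1 ht1) h1.symm

end Pool.Agent.Results.MP_0f25e6_al.OrderedActions
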